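import Pool.Agent.J6H71.MuS.StmC

/-!
# Simple modules over abelian groups
-/

set_option autoImplicit false

namespace Pool.Agent.J6H23.MuS

open Pool.Agent.Q60.MU Pool.Agent.W5h77.MB Pool.Agent.W5h33.DF Pool.Agent.J6H14.DMu
  Pool.Agent.J6H71.Mu Pool.Agent.J6H71.MuS
open scoped commutatorElement

section
variable {𝔾 : Type} [Group 𝔾] {S : Type} [CommGroup S]

/-- The action, as endomorphisms of the additive group. -/
def act (b : 𝔾 →* MulAut S) : 𝔾 →* AddMonoid.End (Additive S) where
  toFun g := MonoidHom.toAdditive (b g).toMonoidHom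
  map_one' := by
    ext s
    show Additive.ofMul (b 1 s.toMul) = s
    rw [map_one, MulAut.one_apply]
    rfl
  map_mul' := by
    intro g h
    ext s
    show Additive.ofMul (b (g * h) s.toMul) = Additive.ofMul (b g (b h s.toMul))
    rw [map_mul, MulAut.mul_apply]

theorem act_apply (b : 𝔾 →* MulAut S) (g : 𝔾) (s : Additive S) :
    act b g s = Additive.ofMul (b g s.toMul) := rfl

theorem act_eq_one (b : 𝔾 →* MulAut S) (g : 𝔾) : act b g = 1 ↔ b g = 1 := by
  constructor
  · intro h
    ext s
    have h1 : act b g (Additive.ofMul s) = Additive.ofMul s := by rw [h]; rfl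
    rw [act_apply] at h1
    exact Additive.ofMul.injective h1
  · intro h
    ext s
    rw [act_apply, h]
    rfl

/-- The ring of the action. -/
def rg (b : 𝔾 →* MulAut S) : Subring (AddMonoid.End (Additive S)) :=
  Subring.closure (Set.range (act b))

theorem rg_comm {b : 𝔾 →* MulAut S} (hb : ∀ g h, b g * b h = b h * b g) (g : 𝔾)
    {r : AddMonoid.End (Additive S)} (hr : r ∈ rg b) : act b g * r = r * act b g := by
  induction hr using Subring.closure_induction with
  | mem x hx =>
    obtain ⟨h, rfl⟩ := hx
    rw [← map_mul, ← map_mul]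
    ext s
    rw [act_apply, act_apply, map_mul, hb, ← map_mul]
  | zero => rw [mul_zero, zero_mul]
  | one => rw [mul_one, one_mul]
  | add x y _ _ hx hy => rw [mul_add, add_mul, hx, hy]
  | neg x _ hx =>
    ext s
    have h1 : act b g (x s) = x (act b g s) := DFunLike.congr_fun hx s
    show act b g (-(x s)) = -(x (act b g s))
    rw [map_neg, h1]
  | mul x y _ _ hx hy => rw [← mul_assoc, hx, mul_assoc, hy, mul_assoc]

/-- A nonzero element of the ring of the action has trivial kernel. -/
theorem rg_ker {p : ℕ} {K : Subgroup 𝔾} {b : 𝔾 →* MulAut S} (hS : Simp p K b)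
    (hb : ∀ g h, b g * b h = b h * b g) {r : AddMonoid.End (Additive S)} (hr : r ∈ rg b)
    (h0 : r ≠ 0) {s : Additive S} (hs : r s = 0) : s = 0 := by
  let T : Subgroup S :=
    { carrier := {s | r (Additive.ofMul s) = 0}
      mul_mem' := by
        intro x y hx hy
        show r (Additive.ofMul (x * y)) = 0
        rw [ofMul_mul, map_add, show r (Additive.ofMul x) = 0 from hx,
          show r (Additive.ofMul y) = 0 from hy, add_zero]
      one_mem' := by
        show r (Additive.ofMul 1) = 0
        rw [ofMul_one, map_zero]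
      inv_mem' := by
        intro x hx
        show r (Additive.ofMul x⁻¹) = 0
        rw [ofMul_inv, map_neg, show r (Additive.ofMul x) = 0 from hx, neg_zero] }
  rcases hS.2.2.2 T (by
    intro g s hs
    have h1 : act b g * r = r * act b g := rg_comm hb g hr
    have h2 : act b g (r (Additive.ofMul s)) = r (act b g (Additive.ofMul s)) :=
      DFunLike.congr_fun h1 (Additive.ofMul s)
    have h3 : r (Additive.ofMul s) = 0 := hs
    rw [h3, map_zero] at h2
    exact h2.symm) with h | h
  · have h1 : s.toMul ∈ T := hs
    rw [h, Subgroup.mem_bot] at h1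
    exact h1
  · exfalso
    apply h0
    ext x
    have h1 : x.toMul ∈ T := by rw [h]; exact Subgroup.mem_top _
    exact h1

end

open scoped IsMulCommutative in
theorem abelianSimple : AbelianSimpleT := by
  intro 𝔾 _ p hp K hKn hKi hcomm S _ _ b hS
  have hb : ∀ g h, b g * b h = b h * b g := by
    intro g h
    have h1 := hS.2.2.1 _ (hcomm g h)
    rw [commutatorElement_def, map_mul, map_mul, map_mul, map_inv, map_inv, mul_inv_eq_one,
      mul_inv_eq_iff_eq_mul] at h1
    exact h1
  have hb' : ∀ g h s, b g (b h s) = b h (b g s) := by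
    intro g h s
    rw [← MulAut.mul_apply, hb, MulAut.mul_apply]
  have hnt := hS.1
  obtain ⟨v, hv⟩ := exists_ne (1 : S)
  refine ⟨?_, ?_, ?_⟩
  · -- the evaluation is surjective
    let T : Subgroup S :=
      { carrier := {s | ∃ e : En b, e.1 v = s}
        mul_mem' := by
          rintro _ _ ⟨e, rfl⟩ ⟨f, rfl⟩
          exact ⟨⟨e.1 * f.1, fun g s => by
            rw [MonoidHom.mul_apply, MonoidHom.mul_apply, e.2, f.2, map_mul]⟩, rfl⟩
        one_mem' := ⟨⟨1, fun g s => by
          rw [MonoidHom.one_apply, MonoidHom.one_apply, map_one]⟩, rfl⟩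
        inv_mem' := by
          rintro _ ⟨e, rfl⟩
          exact ⟨⟨e.1⁻¹, fun g s => by
            rw [MonoidHom.inv_apply, MonoidHom.inv_apply, e.2, map_inv]⟩, rfl⟩ }
    have hT : T = ⊤ := by
      rcases hS.2.2.2 T (by
        rintro g _ ⟨e, rfl⟩
        refine ⟨⟨(b g).toMonoidHom.comp e.1, fun h s => ?_⟩, rfl⟩
        show b g (e.1 (b h s)) = b h (b g (e.1 s))
        rw [e.2, hb']) with h | h
      · exfalso
        have h1 : v ∈ T := ⟨⟨MonoidHom.id S, fun g s => rfl⟩, rfl⟩
        rw [h, Subgroup.mem_bot] at h1
        exact hv h1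
      · exact h
    have : Finite (S →* S) := DFunLike.finite _
    have : Finite (En b) := Subtype.finite
    apply Nat.card_le_card_of_surjective (fun e : En b => e.1 v)
    intro s
    have h1 : s ∈ T := by rw [hT]; exact Subgroup.mem_top _
    exact h1
  · intro H
    exact (hS.2.2.2 (fx b H) (by
      intro g s hs h hh
      rw [hb', hs h hh])).symm
  · -- the ring of the action is a field
    have hmc : IsMulCommutative (rg b) := Subring.isMulCommutative_closure (by
      rintro _ ⟨g, rfl⟩ _ ⟨h, rfl⟩
      exact rg_comm hb g (Subring.subset_closure ⟨h, rfl⟩))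
    have hinj : ∀ r : rg b, r ≠ 0 → ∀ s, r.1 s = 0 → s = 0 := by
      intro r hr s hs
      exact rg_ker hS hb r.2 (fun h => hr (Subtype.ext h)) hs
    have hfin : Finite (AddMonoid.End (Additive S)) := DFunLike.finite _
    have : Finite (rg b) := Subtype.finite
    have : Nontrivial (rg b) := ⟨⟨0, 1, fun h => by
      have h1 : (0 : AddMonoid.End (Additive S)) = 1 := congrArg Subtype.val h
      have h2 := DFunLike.congr_fun h1 (Additive.ofMul v)
      exact hv (Additive.ofMul.injective h2.symm)⟩⟩
    have : NoZeroDivisors (rg b) := ⟨by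
      intro x y hxy
      by_contra hh
      push Not at hh
      apply hh.2
      apply Subtype.ext
      ext s
      apply hinj x hh.1
      have h1 : x.1 * y.1 = 0 := congrArg Subtype.val hxy
      have h2 := DFunLike.congr_fun h1 s
      exact h2⟩
    have : IsDomain (rg b) := NoZeroDivisors.to_isDomain _
    have hcard : Nat.card (rg b) = Nat.card S := by
      apply Nat.card_congr
      apply Equiv.ofBijective (fun r : rg b => (r.1 (Additive.ofMul v)).toMul)
      constructor
      · intro x y hxy
        by_contra hne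
        have h1 : x - y ≠ 0 := sub_ne_zero.2 hne
        have h2 := hinj (x - y) h1 (Additive.ofMul v) (by
          have h3 : x.1 (Additive.ofMul v) = y.1 (Additive.ofMul v) := hxy
          show x.1 (Additive.ofMul v) - y.1 (Additive.ofMul v) = 0
          rw [h3, sub_self])
        exact hv (Additive.ofMul.injective h2)
      · let T : Subgroup S :=
          { carrier := {s | ∃ e : rg b, (e.1 (Additive.ofMul v)).toMul = s}
            mul_mem' := by
              rintro _ _ ⟨e, rfl⟩ ⟨f, rfl⟩
              exact ⟨e + f, rfl⟩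
            one_mem' := ⟨0, rfl⟩
            inv_mem' := by
              rintro _ ⟨e, rfl⟩
              exact ⟨-e, rfl⟩ }
        have hT : T = ⊤ := by
          rcases hS.2.2.2 T (by
            rintro g _ ⟨e, rfl⟩
            exact ⟨⟨act b g, Subring.subset_closure ⟨g, rfl⟩⟩ * e, rfl⟩) with h | h
          · exfalso
            have h1 : v ∈ T := ⟨1, rfl⟩
            rw [h, Subgroup.mem_bot] at h1
            exact hv h1
          · exact h
        intro s
        have h1 : s ∈ T := by rw [hT]; exact Subgroup.mem_top _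
        exact h1
    let c : 𝔾 →* rg b :=
      { toFun := fun g => ⟨act b g, Subring.subset_closure ⟨g, rfl⟩⟩
        map_one' := Subtype.ext (map_one (act b))
        map_mul' := fun g h => Subtype.ext (map_mul (act b) g h) }
    let φ : 𝔾 →* (rg b)ˣ := c.toHomUnits
    have hφ : ∀ g, φ g = 1 ↔ b g = 1 := by
      intro g
      rw [← act_eq_one, Units.ext_iff]
      show c g = 1 ↔ _
      rw [Subtype.ext_iff]
      rfl
    have hker : φ.ker = b.ker := by
      ext g
      rw [MonoidHom.mem_ker, MonoidHom.mem_ker, hφ]
    have hdvd : b.ker.index ∣ Nat.card S - 1 := by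
      rw [← hker, Subgroup.index_ker, ← hcard]
      have : Fintype (rg b) := Fintype.ofFinite _
      classical
      let iF : Field (rg b) := Fintype.fieldOfDomain (rg b)
      have h1 : Nat.card (rg b)ˣ = Nat.card (rg b) - 1 := Nat.card_units _
      rw [← h1]
      exact Subgroup.card_subgroup_dvd_card _
    obtain ⟨d, hd⟩ := (IsPGroup.iff_card (p := p) (G := S)).1 (fun s => ⟨1, by
      rw [pow_one]; exact hS.2.1 s⟩)
    have hd0 : 0 < d := by
      rcases Nat.eq_zero_or_pos d with h | h
      · exfalso
        rw [h, pow_zero] at hd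
        have := Finite.one_lt_card (α := S)
        omega
      · exact h
    have hS1 : 1 ≤ Nat.card S := Nat.card_pos
    refine ⟨?_, ?_, ?_⟩
    · have : Finite (rg b)ˣ := inferInstance
      have : IsCyclic (rg b)ˣ := inferInstance
      have : IsCyclic φ.range := Subgroup.isCyclic _
      obtain ⟨⟨_, σ, rfl⟩, hσ⟩ := IsCyclic.exists_generator (α := φ.range)
      refine ⟨σ, fun τ => ?_⟩
      obtain ⟨i, hi⟩ := Subgroup.mem_zpowers_iff.1 (hσ ⟨φ τ, τ, rfl⟩)
      refine ⟨i, ?_⟩
      have h1 : φ σ ^ i = φ τ := congrArg Subtype.val hi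
      rw [← hker, MonoidHom.mem_ker, map_mul, map_inv, map_zpow, h1, mul_inv_cancel]
    · intro h
      have h1 : p ∣ Nat.card S - 1 := h.trans hdvd
      have h2 : p ∣ Nat.card S := by rw [hd]; exact dvd_pow_self p hd0.ne'
      have h3 : p ∣ 1 := by
        have := (Nat.dvd_sub h2 h1)
        rwa [Nat.sub_sub_self hS1] at this
      exact hp.out.one_lt.ne' (Nat.dvd_one.1 h3)
    · rw [hd]
      apply Nat.pow_le_pow_right hp.out.pos
      apply orderOf_le_of_pow_eq_one hd0
      have h1 : ((p ^ d - 1 : ℕ) : ZMod b.ker.index) = 0 := by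
        rw [ZMod.natCast_eq_zero_iff, ← hd]
        exact hdvd
      rw [Nat.cast_sub (Nat.one_le_pow _ _ hp.out.pos), sub_eq_zero] at h1
      rw [← Nat.cast_pow, h1, Nat.cast_one]

end Pool.Agent.J6H23.MuS
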